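import Pool.Agent.Y506.FF.Stm

/-! Halfspaces: a linear isoperimetric inequality for halfspaces orthogonal to a unit vector bounds
the second moment in this direction. -/

set_option autoImplicit false

namespace Pool.Agent.Y211.FF

open MeasureTheory Set Filter Topology
open scoped ENNReal InnerProductSpace
open Pool.Agent.W695.KH (Eu)
open Pool.Agent.Y506.FF

lemma propag (P : ℝ → ℝ) (hP : Antitone P) (κ m B : ℝ) (hmB : m ≤ B)
    (step : ∀ b, m ≤ b → b < B → ∀ δ > 0, ∃ c, b < c ∧ c < b + δ ∧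
      P c ≤ Real.exp (κ * (c - b)) * P b) :
    P B ≤ Real.exp (κ * (B - m)) * P m := by
  let T : Set ℝ := {b | m ≤ b ∧ b ≤ B ∧ P b ≤ Real.exp (κ * (b - m)) * P m}
  have hm : m ∈ T := ⟨le_rfl, hmB, by simp⟩
  have hT : T.Nonempty := ⟨m, hm⟩
  have hbd : BddAbove T := ⟨B, fun b hb => hb.2.1⟩
  have hms : m ≤ sSup T := le_csSup hbd hm
  have hsB : sSup T ≤ B := csSup_le hT fun b hb => hb.2.1
  have hcl : IsClosed {b : ℝ | P (sSup T) ≤ Real.exp (κ * (b - m)) * P m} :=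
    isClosed_le continuous_const (by fun_prop)
  have hsub : T ⊆ {b : ℝ | P (sSup T) ≤ Real.exp (κ * (b - m)) * P m} := by
    intro b hb
    exact (hP (le_csSup hbd hb)).trans hb.2.2
  have hs : P (sSup T) ≤ Real.exp (κ * (sSup T - m)) * P m :=
    (closure_minimal hsub hcl) (csSup_mem_closure hT hbd)
  rcases hsB.lt_or_eq with h | h
  · exfalso
    obtain ⟨c, hc1, hc2, hc3⟩ := step (sSup T) hms h (B - sSup T) (by linarith)
    have hcT : c ∈ T := by
      refine ⟨by linarith, by linarith, hc3.trans ?_⟩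
      calc Real.exp (κ * (c - sSup T)) * P (sSup T)
          ≤ Real.exp (κ * (c - sSup T)) * (Real.exp (κ * (sSup T - m)) * P m) :=
            mul_le_mul_of_nonneg_left hs (Real.exp_pos _).le
        _ = Real.exp (κ * (c - m)) * P m := by
            rw [← mul_assoc, ← Real.exp_add]; congr 2; ring
    have := le_csSup hbd hcT
    linarith
  · rw [h] at hs
    exact hs

section

variable {κ : Type} [Fintype κ] (μ : Measure (Eu κ)) [IsProbabilityMeasure μ] (a : Eu κ)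

set_option linter.unusedSectionVars false in
/-- distribution function -/
noncomputable def F (b : ℝ) : ℝ := μ.real {x : Eu κ | ⟪a, x⟫_ℝ ≤ b}

lemma F_mono : Monotone (F μ a) := by
  intro b c hbc
  exact measureReal_mono (fun x hx => le_trans hx hbc)

omit [IsProbabilityMeasure μ] in
lemma F_nonneg (b : ℝ) : 0 ≤ F μ a b := measureReal_nonneg

lemma F_le_one (b : ℝ) : F μ a b ≤ 1 := by
  unfold F
  exact measureReal_le_one

lemma thick (ha : ‖a‖ = 1) (b ε : ℝ) :
    Metric.thickening ε {x : Eu κ | ⟪a, x⟫_ℝ ≤ b} ⊆ {x : Eu κ | ⟪a, x⟫_ℝ ≤ b + ε} := by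
  intro x hx
  rw [Metric.mem_thickening_iff] at hx
  obtain ⟨y, hy, hxy⟩ := hx
  have h1 : ⟪a, x⟫_ℝ = ⟪a, y⟫_ℝ + ⟪a, x - y⟫_ℝ := by rw [inner_sub_right]; ring
  have h2 : ⟪a, x - y⟫_ℝ ≤ ‖a‖ * ‖x - y‖ := real_inner_le_norm _ _
  rw [ha, one_mul, ← dist_eq_norm] at h2
  have h3 : ⟪a, y⟫_ℝ ≤ b := hy
  show ⟪a, x⟫_ℝ ≤ b + ε
  linarith

lemma stepF (ha : ‖a‖ = 1) (t : ℝ≥0∞)
    (h : ∀ b : ℝ, t * min (μ {x : Eu κ | ⟪a, x⟫_ℝ ≤ b}) (1 - μ {x : Eu κ | ⟪a, x⟫_ℝ ≤ b}) ≤
    liminf (fun ε : ℝ => (μ (Metric.thickening ε {x : Eu κ | ⟪a, x⟫_ℝ ≤ b}) -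
      μ {x : Eu κ | ⟪a, x⟫_ℝ ≤ b}) / ENNReal.ofReal ε) (𝓝[>] 0))
    (k : ℝ) (hk : 0 ≤ k) (hkt : ENNReal.ofReal k < t) (b δ : ℝ) (hδ : 0 < δ) :
    ∃ ε, 0 < ε ∧ ε < δ ∧ k * min (F μ a b) (1 - F μ a b) * ε ≤ F μ a (b + ε) - F μ a b := by
  by_cases h0 : min (F μ a b) (1 - F μ a b) = 0
  · refine ⟨δ / 2, by linarith, by linarith, ?_⟩
    rw [h0]
    have := F_mono μ a (show b ≤ b + δ / 2 by linarith)
    linarith
  · have hu1 : μ {x : Eu κ | ⟪a, x⟫_ℝ ≤ b} ≤ 1 := prob_le_one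
    have hut : μ {x : Eu κ | ⟪a, x⟫_ℝ ≤ b} ≠ ⊤ := measure_ne_top _ _
    have e1 : (min (μ {x : Eu κ | ⟪a, x⟫_ℝ ≤ b}) (1 - μ {x : Eu κ | ⟪a, x⟫_ℝ ≤ b})).toReal =
        min (F μ a b) (1 - F μ a b) := by
      rw [ENNReal.toReal_min hut (by finiteness), ENNReal.toReal_sub_of_le hu1 (by simp)]
      simp [F, Measure.real]
    set w := min (μ {x : Eu κ | ⟪a, x⟫_ℝ ≤ b}) (1 - μ {x : Eu κ | ⟪a, x⟫_ℝ ≤ b}) with hw
    have hw0 : w ≠ 0 := by
      intro h1
      rw [h1] at e1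
      exact h0 (by rw [← e1]; simp)
    have hwt : w ≠ ⊤ := ne_top_of_le_ne_top hut (min_le_left _ _)
    have h1 : ENNReal.ofReal k * w < t * w := by
      rw [mul_comm, mul_comm t]
      exact (ENNReal.mul_lt_mul_iff_right hw0 hwt).mpr hkt
    have h2 := eventually_lt_of_lt_liminf (h1.trans_le (h b))
    obtain ⟨ε, hε, hε2⟩ := (h2.and (Ioo_mem_nhdsGT hδ)).exists
    refine ⟨ε, hε2.1, hε2.2, ?_⟩
    have h3 : ENNReal.ofReal k * w ≤ (μ {x : Eu κ | ⟪a, x⟫_ℝ ≤ b + ε} -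
        μ {x : Eu κ | ⟪a, x⟫_ℝ ≤ b}) / ENNReal.ofReal ε := by
      refine hε.le.trans ?_
      gcongr
      exact thick a ha b ε
    rw [ENNReal.le_div_iff_mul_le (Or.inl (by simpa using hε2.1)) (Or.inl (by simp))] at h3
    have h4 := ENNReal.toReal_mono (by finiteness) h3
    have h5 : μ {x : Eu κ | ⟪a, x⟫_ℝ ≤ b} ≤ μ {x : Eu κ | ⟪a, x⟫_ℝ ≤ b + ε} := by
      apply measure_mono
      intro x hx
      have hx' : ⟪a, x⟫_ℝ ≤ b := hx
      show ⟪a, x⟫_ℝ ≤ b + ε
      linarith [hε2.1]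
    rw [ENNReal.toReal_mul, ENNReal.toReal_mul, ENNReal.toReal_ofReal hk,
      ENNReal.toReal_ofReal hε2.1.le, e1, ENNReal.toReal_sub_of_le h5 (by finiteness)] at h4
    exact h4

/-- decay to the right of a point where the distribution function is at least one half -/
lemma right (k : ℝ)
    (hs : ∀ b δ : ℝ, 0 < δ → ∃ ε, 0 < ε ∧ ε < δ ∧
      k * min (F μ a b) (1 - F μ a b) * ε ≤ F μ a (b + ε) - F μ a b)
    (m B : ℝ) (hm : 1 / 2 ≤ F μ a m) (hB : m ≤ B) :
    1 - F μ a B ≤ Real.exp (-k * (B - m)) * (1 - F μ a m) := by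
  refine propag (fun b => 1 - F μ a b) (fun b c hbc => by
    have := F_mono μ a hbc
    simp only
    linarith) (-k) m B hB ?_
  intro b hb _ δ hδ
  obtain ⟨ε, h1, h2, h3⟩ := hs b δ hδ
  refine ⟨b + ε, by linarith, by linarith, ?_⟩
  have h4 : 1 / 2 ≤ F μ a b := hm.trans (F_mono μ a hb)
  rw [min_eq_right (by linarith)] at h3
  have h5 := Real.add_one_le_exp (-k * ε)
  have h6 := F_le_one μ a b
  have h7 : (-k * ε + 1) * (1 - F μ a b) ≤ Real.exp (-k * ε) * (1 - F μ a b) :=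
    mul_le_mul_of_nonneg_right h5 (by linarith)
  have e : -k * (b + ε - b) = -k * ε := by ring
  simp only [e]
  linarith

/-- decay to the left of a point where the distribution function is at most one half -/
lemma left (k : ℝ) (hk : 0 < k)
    (hs : ∀ b δ : ℝ, 0 < δ → ∃ ε, 0 < ε ∧ ε < δ ∧
      k * min (F μ a b) (1 - F μ a b) * ε ≤ F μ a (b + ε) - F μ a b)
    (m B : ℝ) (hB : F μ a B ≤ 1 / 2) (hmB : m ≤ B) :
    F μ a m ≤ Real.exp (-(k / 2) * (B - m)) * F μ a B := by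
  have h := propag (fun b => - F μ a b) (fun b c hbc => by
    have := F_mono μ a hbc
    simp only
    linarith) (k / 2) m B hmB (by
    intro b hb hbB δ hδ
    obtain ⟨ε, h1, h2, h3⟩ := hs b (min δ (1 / k)) (by positivity)
    have h2' := h2.trans_le (min_le_left _ _)
    have h2'' : ε * k ≤ 1 := by
      have := (h2.trans_le (min_le_right _ _)).le
      rwa [le_div_iff₀ hk] at this
    refine ⟨b + ε, by linarith, by linarith, ?_⟩
    have h4 : F μ a b ≤ 1 / 2 := (F_mono μ a hbB.le).trans hB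
    rw [min_eq_left (by linarith)] at h3
    have h5 : Real.exp (k / 2 * ε) ≤ 1 + k * ε := by
      have h6 := Real.add_one_le_exp (-(k / 2 * ε))
      have h7 : 0 < -(k / 2 * ε) + 1 := by nlinarith
      have h8 : Real.exp (k / 2 * ε) * (-(k / 2 * ε) + 1) ≤ 1 := by
        calc Real.exp (k / 2 * ε) * (-(k / 2 * ε) + 1)
            ≤ Real.exp (k / 2 * ε) * Real.exp (-(k / 2 * ε)) :=
              mul_le_mul_of_nonneg_left h6 (Real.exp_pos _).le
          _ = 1 := by rw [← Real.exp_add]; simp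
      have h9 : 1 ≤ (1 + k * ε) * (-(k / 2 * ε) + 1) := by
        have : 0 ≤ k * ε := by positivity
        nlinarith
      exact le_of_mul_le_mul_right (h8.trans h9) h7
    have h6 := F_nonneg μ a b
    have h7 := mul_le_mul_of_nonneg_right h5 h6
    have e : k / 2 * (b + ε - b) = k / 2 * ε := by ring
    simp only [e]
    linarith)
  simp only [mul_neg, neg_le_neg_iff] at h
  have e : Real.exp (-(k / 2) * (B - m)) * Real.exp (k / 2 * (B - m)) = 1 := by
    rw [← Real.exp_add]; simp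
  calc F μ a m = Real.exp (-(k / 2) * (B - m)) * (Real.exp (k / 2 * (B - m)) * F μ a m) := by
        rw [← mul_assoc, e, one_mul]
    _ ≤ _ := mul_le_mul_of_nonneg_left h (Real.exp_pos _).le

/-- layer cake -/
lemma layer (y : ℝ) (hy : 0 ≤ y) : ENNReal.ofReal (y ^ 2) ≤
    ∑' j : ℕ, ENNReal.ofReal (2 * j + 1) * (if (j : ℝ) < y then 1 else 0) := by
  have h1 : y ≤ ⌈y⌉₊ := Nat.le_ceil y
  have h2 : ∀ K : ℕ, ∑ j ∈ Finset.range K, (2 * (j : ℝ) + 1) = (K : ℝ) ^ 2 := by
    intro K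
    induction K with
    | zero => simp
    | succ K ih => rw [Finset.sum_range_succ, ih]; push_cast; ring
  calc ENNReal.ofReal (y ^ 2) ≤ ENNReal.ofReal ((⌈y⌉₊ : ℝ) ^ 2) := by
        apply ENNReal.ofReal_le_ofReal
        gcongr
    _ = ∑ j ∈ Finset.range ⌈y⌉₊, ENNReal.ofReal (2 * (j : ℝ) + 1) := by
        rw [← h2, ENNReal.ofReal_sum_of_nonneg (by intro j _; positivity)]
    _ = ∑ j ∈ Finset.range ⌈y⌉₊, ENNReal.ofReal (2 * (j : ℝ) + 1) *
          (if (j : ℝ) < y then 1 else 0) := by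
        refine Finset.sum_congr rfl fun j hj => ?_
        rw [if_pos (Nat.lt_ceil.mp (Finset.mem_range.mp hj)), mul_one]
    _ ≤ _ := ENNReal.sum_le_tsum _

/-- the constant -/
noncomputable def C0 : ℝ := ∑' j : ℕ, (2 * (j : ℝ) + 1) * (2 * Real.exp (1 - j))

lemma C0_sum : Summable fun j : ℕ => (2 * (j : ℝ) + 1) * (2 * Real.exp (1 - j)) := by
  have h0 := Real.summable_pow_mul_exp_neg_nat_mul 0 (r := 1) one_pos
  have h1 := Real.summable_pow_mul_exp_neg_nat_mul 1 (r := 1) one_pos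
  have h := (h1.mul_left (4 * Real.exp 1)).add (h0.mul_left (2 * Real.exp 1))
  refine h.congr fun j => ?_
  have e : Real.exp (1 - (j : ℝ)) = Real.exp 1 * Real.exp (-1 * j) := by
    rw [← Real.exp_add]; congr 1; ring
  rw [e]
  ring

lemma second (k m : ℝ) (hk : 0 < k) (hR : ∀ j : ℕ, 1 - F μ a (m + j / k) ≤ Real.exp (1 - j))
    (hL : ∀ j : ℕ, F μ a (m - j / k) ≤ Real.exp (1 - j)) :
    ∫⁻ x, ENNReal.ofReal ((k * |⟪a, x⟫_ℝ - m|) ^ 2) ∂μ ≤ ENNReal.ofReal C0 := by
  have hms : ∀ b : ℝ, MeasurableSet {x : Eu κ | ⟪a, x⟫_ℝ ≤ b} := by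
    intro b
    exact (isClosed_le (by fun_prop) continuous_const).measurableSet
  have hmeas : ∀ j : ℕ, MeasurableSet {x : Eu κ | (j : ℝ) < k * |⟪a, x⟫_ℝ - m|} := by
    intro j
    exact (isOpen_lt continuous_const (by fun_prop)).measurableSet
  calc ∫⁻ x, ENNReal.ofReal ((k * |⟪a, x⟫_ℝ - m|) ^ 2) ∂μ
      ≤ ∫⁻ x, ∑' j : ℕ, ENNReal.ofReal (2 * j + 1) *
          (if (j : ℝ) < k * |⟪a, x⟫_ℝ - m| then 1 else 0) ∂μ :=
        lintegral_mono fun x => layer _ (by positivity)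
    _ = ∑' j : ℕ, ∫⁻ x, ENNReal.ofReal (2 * j + 1) *
          (if (j : ℝ) < k * |⟪a, x⟫_ℝ - m| then 1 else 0) ∂μ := by
        rw [lintegral_tsum]
        intro j
        exact (Measurable.const_mul (Measurable.ite (hmeas j) measurable_const
          measurable_const) _).aemeasurable
    _ ≤ ∑' j : ℕ, ENNReal.ofReal ((2 * (j : ℝ) + 1) * (2 * Real.exp (1 - j))) := by
        refine ENNReal.tsum_le_tsum fun j => ?_
        rw [lintegral_const_mul _ (Measurable.ite (hmeas j) measurable_const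
          measurable_const), ENNReal.ofReal_mul (by positivity)]
        gcongr
        have e : ∀ x : Eu κ, (if (j : ℝ) < k * |⟪a, x⟫_ℝ - m| then (1 : ℝ≥0∞) else 0) =
            indicator {x : Eu κ | (j : ℝ) < k * |⟪a, x⟫_ℝ - m|} 1 x := by
          intro x
          simp [indicator]
        simp only [e]
        rw [lintegral_indicator_one (hmeas j)]
        have hsub : {x : Eu κ | (j : ℝ) < k * |⟪a, x⟫_ℝ - m|} ⊆
            {x : Eu κ | ⟪a, x⟫_ℝ ≤ m + j / k}ᶜ ∪ {x : Eu κ | ⟪a, x⟫_ℝ ≤ m - j / k} := by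
          intro x hx
          have hx' : (j : ℝ) < k * |⟪a, x⟫_ℝ - m| := hx
          have h1 : (j : ℝ) / k < |⟪a, x⟫_ℝ - m| := by
            rw [div_lt_iff₀ hk]; linarith
          rcases lt_abs.mp h1 with h2 | h2
          · left
            simp only [mem_compl_iff, mem_ofPred_eq, not_le]
            linarith
          · right
            simp only [mem_ofPred_eq]
            linarith
        have h1 : μ {x : Eu κ | (j : ℝ) < k * |⟪a, x⟫_ℝ - m|} ≤
            μ {x : Eu κ | ⟪a, x⟫_ℝ ≤ m + j / k}ᶜ + μ {x : Eu κ | ⟪a, x⟫_ℝ ≤ m - j / k} :=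
          (measure_mono hsub).trans (measure_union_le _ _)
        refine h1.trans ?_
        rw [two_mul, ENNReal.ofReal_add (Real.exp_pos _).le (Real.exp_pos _).le]
        gcongr
        · rw [← ofReal_measureReal (measure_ne_top _ _)]
          apply ENNReal.ofReal_le_ofReal
          rw [measureReal_compl (hms _)]
          simpa [F] using hR j
        · rw [← ofReal_measureReal (measure_ne_top _ _)]
          exact ENNReal.ofReal_le_ofReal (hL j)
    _ = ENNReal.ofReal C0 := by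
        unfold C0
        rw [ENNReal.ofReal_tsum_of_nonneg (by intro j; positivity) C0_sum]

end

theorem half : S_HALF := by
  have hC0 : 0 ≤ C0 := tsum_nonneg fun j => by positivity
  refine ⟨4 * C0 + 1, by positivity, ?_⟩
  intro κ _ D hD _ hDi μ hμ a t ha h
  rcases eq_or_ne t 0 with rfl | ht
  · exact ⟨0, by simp⟩
  have hv0 : volume D ≠ 0 := (Measure.measure_pos_of_nonempty_interior volume hDi).ne'
  have hvt : volume D ≠ ⊤ := hD.measure_lt_top.ne
  have : IsProbabilityMeasure μ := ⟨by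
    rw [hμ, Measure.smul_apply, Measure.restrict_apply_univ, smul_eq_mul,
      ENNReal.inv_mul_cancel hv0 hvt]⟩
  obtain ⟨R, hR⟩ := hD.isBounded.exists_norm_le
  have hab : ∀ x ∈ D, |⟪a, x⟫_ℝ| ≤ R := by
    intro x hx
    have h1 := abs_real_inner_le_norm a x
    rw [ha, one_mul] at h1
    exact h1.trans (hR x hx)
  have hms : ∀ b : ℝ, MeasurableSet {x : Eu κ | ⟪a, x⟫_ℝ ≤ b} := by
    intro b
    exact (isClosed_le (by fun_prop) continuous_const).measurableSet
  have hF1 : F μ a R = 1 := by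
    unfold F
    rw [Measure.real, hμ, Measure.smul_apply, Measure.restrict_apply (hms _)]
    have : {x : Eu κ | ⟪a, x⟫_ℝ ≤ R} ∩ D = D := by
      rw [inter_eq_right]
      intro x hx
      exact (le_abs_self _).trans (hab x hx)
    rw [this, smul_eq_mul, ENNReal.inv_mul_cancel hv0 hvt]
    simp
  have hF0 : ∀ b, b < -R → F μ a b = 0 := by
    intro b hb
    unfold F
    rw [Measure.real, hμ, Measure.smul_apply, Measure.restrict_apply (hms _)]
    have : {x : Eu κ | ⟪a, x⟫_ℝ ≤ b} ∩ D = ∅ := by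
      rw [eq_empty_iff_forall_notMem]
      rintro x ⟨hx1, hx2⟩
      have hx1' : ⟪a, x⟫_ℝ ≤ b := hx1
      have := (neg_le_abs _).trans (hab x hx2)
      linarith
    rw [this]
    simp
  have hne : {b : ℝ | 1 / 2 ≤ F μ a b}.Nonempty := ⟨R, by
    show 1 / 2 ≤ F μ a R
    rw [hF1]; norm_num⟩
  have hbd : BddBelow {b : ℝ | 1 / 2 ≤ F μ a b} := by
    refine ⟨-R, fun b hb => ?_⟩
    by_contra hlt
    push Not at hlt
    have hb' : 1 / 2 ≤ F μ a b := hb
    rw [hF0 b hlt] at hb'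
    norm_num at hb'
  set m := sInf {b : ℝ | 1 / 2 ≤ F μ a b} with hm
  have hmr : ∀ b, m < b → 1 / 2 ≤ F μ a b := by
    intro b hb
    obtain ⟨c, hc, hcb⟩ := exists_lt_of_csInf_lt hne hb
    have hc' : 1 / 2 ≤ F μ a c := hc
    exact hc'.trans (F_mono μ a hcb.le)
  have hml : ∀ b, b < m → F μ a b ≤ 1 / 2 := by
    intro b hb
    have := notMem_of_lt_csInf hb hbd
    by_contra hlt
    push Not at hlt
    exact this hlt.le
  have key : ∀ k : ℝ, 0 < k → ENNReal.ofReal k < t →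
      ENNReal.ofReal k ^ 2 * ∫⁻ x, ENNReal.ofReal ((⟪a, x⟫_ℝ - m) ^ 2) ∂μ ≤
        ENNReal.ofReal (4 * C0 + 1) := by
    intro k hk hkt
    have hs := stepF μ a ha t h k hk.le hkt
    have hk1 : 0 < 1 / k := by positivity
    have hsec := second μ a (k / 2) m (by positivity) (by
      intro j
      rcases Nat.eq_zero_or_pos j with rfl | hj
      · have := F_nonneg μ a (m + ((0 : ℕ) : ℝ) / (k / 2))
        have h2 := Real.add_one_le_exp (1 - ((0 : ℕ) : ℝ))
        have h3 : (1 - ((0 : ℕ) : ℝ)) = 1 := by simp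
        rw [h3] at h2 ⊢
        linarith
      · have hj1 : (1 : ℝ) ≤ j := by exact_mod_cast hj
        have e1 : (j : ℝ) / (k / 2) = 2 * j * (1 / k) := by field_simp
        have hle : m + 1 / k ≤ m + (j : ℝ) / (k / 2) := by
          rw [e1]; nlinarith
        have h1 := hmr (m + 1 / k) (by linarith)
        have h2 := right μ a k hs (m + 1 / k) (m + (j : ℝ) / (k / 2)) h1 hle
        have e2 : -k * (m + (j : ℝ) / (k / 2) - (m + 1 / k)) = 1 - 2 * j := by
          field_simp; ring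
        rw [e2] at h2
        have h3 : Real.exp (1 - 2 * (j : ℝ)) ≤ Real.exp (1 - j) := by
          apply Real.exp_le_exp.mpr; linarith
        have h4 := F_nonneg μ a (m + 1 / k)
        have h5 := Real.exp_pos (1 - 2 * (j : ℝ))
        nlinarith) (by
      intro j
      rcases Nat.eq_zero_or_pos j with rfl | hj
      · have := F_le_one μ a (m - ((0 : ℕ) : ℝ) / (k / 2))
        have h2 := Real.add_one_le_exp (1 - ((0 : ℕ) : ℝ))
        have h3 : (1 - ((0 : ℕ) : ℝ)) = 1 := by simp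
        rw [h3] at h2 ⊢
        linarith
      · have hj1 : (1 : ℝ) ≤ j := by exact_mod_cast hj
        have e1 : (j : ℝ) / (k / 2) = 2 * j * (1 / k) := by field_simp
        have hle : m - (j : ℝ) / (k / 2) ≤ m - 1 / k := by
          rw [e1]; nlinarith
        have h1 := hml (m - 1 / k) (by linarith)
        have h2 := left μ a k hk hs (m - (j : ℝ) / (k / 2)) (m - 1 / k) h1 hle
        have e2 : -(k / 2) * (m - 1 / k - (m - (j : ℝ) / (k / 2))) = 1 / 2 - j := by
          field_simp; ring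
        rw [e2] at h2
        have h3 : Real.exp (1 / 2 - (j : ℝ)) ≤ Real.exp (1 - j) := by
          apply Real.exp_le_exp.mpr; linarith
        have h4 := F_nonneg μ a (m - 1 / k)
        have h5 := Real.exp_pos (1 / 2 - (j : ℝ))
        nlinarith)
    calc ENNReal.ofReal k ^ 2 * ∫⁻ x, ENNReal.ofReal ((⟪a, x⟫_ℝ - m) ^ 2) ∂μ
        = ∫⁻ x, ENNReal.ofReal k ^ 2 * ENNReal.ofReal ((⟪a, x⟫_ℝ - m) ^ 2) ∂μ := by
          rw [lintegral_const_mul]
          exact (ENNReal.continuous_ofReal.comp (by fun_prop)).measurable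
      _ = ∫⁻ x, ENNReal.ofReal 4 * ENNReal.ofReal ((k / 2 * |⟪a, x⟫_ℝ - m|) ^ 2) ∂μ := by
          refine lintegral_congr fun x => ?_
          rw [← ENNReal.ofReal_pow hk.le, ← ENNReal.ofReal_mul (by positivity),
            ← ENNReal.ofReal_mul (by positivity)]
          congr 1
          rw [mul_pow, sq_abs]
          ring
      _ = ENNReal.ofReal 4 * ∫⁻ x, ENNReal.ofReal ((k / 2 * |⟪a, x⟫_ℝ - m|) ^ 2) ∂μ := by
          rw [lintegral_const_mul]
          exact (ENNReal.continuous_ofReal.comp (by fun_prop)).measurable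
      _ ≤ ENNReal.ofReal 4 * ENNReal.ofReal C0 := by gcongr
      _ = ENNReal.ofReal (4 * C0) := by rw [← ENNReal.ofReal_mul (by positivity)]
      _ ≤ _ := ENNReal.ofReal_le_ofReal (by linarith)
  refine ⟨m, ?_⟩
  have : (𝓝[<] t).NeBot := nhdsLT_neBot_of_exists_lt ⟨0, pos_iff_ne_zero.mpr ht⟩
  have hlim : Tendsto (fun s : ℝ≥0∞ => s ^ 2 * ∫⁻ x, ENNReal.ofReal ((⟪a, x⟫_ℝ - m) ^ 2) ∂μ)
      (𝓝[<] t) (𝓝 (t ^ 2 * ∫⁻ x, ENNReal.ofReal ((⟪a, x⟫_ℝ - m) ^ 2) ∂μ)) := by
    refine ENNReal.Tendsto.mul_const ?_ (Or.inl (pow_ne_zero 2 ht))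
    exact ((ENNReal.continuous_pow 2).tendsto t).mono_left nhdsWithin_le_nhds
  refine le_of_tendsto hlim ?_
  filter_upwards [self_mem_nhdsWithin] with s hs
  have hst : s ≠ ⊤ := (lt_of_lt_of_le hs le_top).ne
  rcases eq_or_ne s 0 with rfl | hs0
  · simp
  · have hsr : 0 < s.toReal := ENNReal.toReal_pos hs0 hst
    have := key s.toReal hsr (by rw [ENNReal.ofReal_toReal hst]; exact hs)
    rwa [ENNReal.ofReal_toReal hst] at this

end Pool.Agent.Y211.FF
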